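import Pool.Agent.Helper28.ND.Spec4

/-! # ND2, part PARM: choice of the parameters. -/

set_option autoImplicit false

namespace Pool.Agent.Helper72.ND.PARM
open Pool.Agent.Helper28.ND
open MeasureTheory Set Filter Topology
open scoped ENNReal NNReal

theorem main : S_PARM := by
  intro al be T hal hab hbe hT
  set de : ℝ := (al + be) / 2 with hde
  have h1 : 0 < de - al := by rw [hde]; linarith
  have h2 : 0 < 1 - de := by rw [hde]; linarith
  have h3 : 0 < be - de := by rw [hde]; linarith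
  have hde0 : 0 < de := by rw [hde]; linarith
  have e1 : ∀ᶠ x : ℝ in atTop, (4 * 10 ^ 7 : ℝ) ≤ x ^ (de - al) :=
    (tendsto_rpow_atTop h1).eventually_ge_atTop _
  have e2 : ∀ᶠ x : ℝ in atTop, (24576 : ℝ) ≤ x ^ (1 - de) :=
    (tendsto_rpow_atTop h2).eventually_ge_atTop _
  have e3 : ∀ᶠ x : ℝ in atTop, (4 * 10 ^ 7 : ℝ) ≤ x := eventually_ge_atTop _
  have hc : Tendsto (fun m : ℕ => (12 : ℝ) * (m : ℝ)) atTop atTop :=
    Tendsto.const_mul_atTop (by norm_num) tendsto_natCast_atTop_atTop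
  obtain ⟨m, hm⟩ := (hc.eventually (e1.and (e2.and e3))).exists
  obtain ⟨hx1, hx2, hx3⟩ := hm
  set x : ℝ := 12 * (m : ℝ) with hx
  have hx0 : 0 < x := by linarith
  have hx1' : 1 < x := by linarith
  obtain ⟨n1, hn1⟩ := exists_nat_ge (32 / T)
  refine ⟨160 + n1, 12 * m, ⌊x ^ de⌋₊, ?_, ?_, ?_⟩
  · have hdege : (1 : ℝ) ≤ x ^ de := Real.one_le_rpow hx1'.le hde0.le
    refine ⟨hT, Dvd.intro _ rfl, ?_, ?_, ?_, by omega, ?_⟩
    · have : ((4 * 10 ^ 7 : ℕ) : ℝ) ≤ ((12 * m : ℕ) : ℝ) := by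
        push_cast
        rw [← hx]
        linarith
      exact_mod_cast this
    · exact Nat.le_floor (by simpa using hdege)
    · have h4 : ((24576 * ⌊x ^ de⌋₊ : ℕ) : ℝ) ≤ ((12 * m : ℕ) : ℝ) := by
        push_cast
        rw [← hx]
        have h5 : (⌊x ^ de⌋₊ : ℝ) ≤ x ^ de := Nat.floor_le (by positivity)
        calc (24576 : ℝ) * (⌊x ^ de⌋₊ : ℝ) ≤ x ^ (1 - de) * x ^ de :=
              mul_le_mul hx2 h5 (by positivity) (by positivity)
          _ = x := by
              rw [← Real.rpow_add hx0]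
              norm_num
      exact_mod_cast h4
    · unfold LL rr
      have h6 : (1 : ℝ) ≤ ((160 + n1 : ℕ) : ℝ) := by
        push_cast
        have : (0 : ℝ) ≤ n1 := Nat.cast_nonneg _
        linarith
      have h7 : 32 / T ≤ ((160 + n1 : ℕ) : ℝ) := by
        push_cast
        linarith
      have h8 : 32 / T ≤ ((160 + n1 : ℕ) : ℝ) ^ 2 := by nlinarith
      have h9 : (0 : ℝ) < ((160 + n1 : ℕ) : ℝ) := by linarith
      rw [pow_zero, mul_one, div_pow, one_pow, mul_one_div]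
      rw [div_le_div_iff₀ (by positivity) (by norm_num)]
      rw [div_le_iff₀ hT] at h8
      linarith
  · have hcast : ((12 * m : ℕ) : ℝ) = x := by push_cast; rfl
    rw [hcast]
    have h5 : x ^ de - 1 < (⌊x ^ de⌋₊ : ℝ) := Nat.sub_one_lt_floor _
    have h6 : x ^ de = x ^ (de - al) * x ^ al := by
      rw [← Real.rpow_add hx0]
      congr 1
      ring
    have h7 : (1 : ℝ) ≤ x ^ al := Real.one_le_rpow hx1'.le hal
    have h8 : (4 * 10 ^ 7 : ℝ) * x ^ al ≤ x ^ de := by
      rw [h6]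
      exact mul_le_mul_of_nonneg_right hx1 (by positivity)
    rw [lt_div_iff₀ (by norm_num), lt_div_iff₀ (by norm_num)]
    nlinarith
  · have hcast : ((12 * m : ℕ) : ℝ) = x := by push_cast; rfl
    rw [hcast]
    calc (⌊x ^ de⌋₊ : ℝ) ≤ x ^ de := Nat.floor_le (by positivity)
      _ < x ^ be := Real.rpow_lt_rpow_of_exponent_lt hx1' (by linarith)

end Pool.Agent.Helper72.ND.PARM
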