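import Pool.Agent.Helper28.ND.Spec4

/-! # ND2, part REC: decomposition into the contributions of the sub-blocks. -/

set_option autoImplicit false

namespace Pool.Agent.Helper72.ND.REC
open Pool.Agent.Helper28.ND
open MeasureTheory Set Filter Topology
open scoped ENNReal NNReal

noncomputable section

/-- the displayed source -/
def fj (n0 N M n k : ℕ) (j : ℕ) (t : ℝ) (x : Fin 2 → ℝ) : ℝ :=
  if 2 * (j : ℕ) * LL n0 N (k + 1) < t ∧ t < (2 * (j : ℕ) + 1) * LL n0 N (k + 1)
    then ft n0 N M (n + 1) k t x else 0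

lemma ft_zero (n0 N M n k : ℕ) (x : Fin 2 → ℝ) : ft n0 N M n k 0 x = 0 := by
  cases n with
  | zero => simp [ft]
  | succ n => simp [ft]

lemma sum_fj (n0 N M n k : ℕ) (hL : 0 < LL n0 N (k + 1)) (hM : 1 ≤ M) (t : ℝ) (x : Fin 2 → ℝ) :
    ft n0 N M (n + 1) k t x = ∑ j : Fin M, fj n0 N M n k (j : ℕ) t x := by
  set L := LL n0 N (k + 1) with hLdef
  by_cases h1 : t ≤ 0 ∨ KC n0 N M k ≤ t
  · have h0 : ft n0 N M (n + 1) k t x = 0 := by
      simp only [ft, h1, if_true]
    rw [h0]
    symm
    apply Finset.sum_eq_zero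
    intro j _
    unfold fj
    split_ifs
    · exact h0
    · rfl
  · push Not at h1
    obtain ⟨ht0, htK⟩ := h1
    have hK : KC n0 N M k = 2 * M * L := rfl
    rw [hK] at htK
    have hex : ft n0 N M (n + 1) k t x
        = if loc L t < L then ft n0 N M n (k + 1) (loc L t) x else 0 := by
      have h1' : ¬ (t ≤ 0 ∨ KC n0 N M k ≤ t) := by
        push Not
        exact ⟨ht0, by rw [hK]; exact htK⟩
      simp only [ft, if_neg h1']
      rw [← hLdef]
      split_ifs <;> rfl
    -- the index
    have h2L : 0 < 2 * L := by linarith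
    set z : ℤ := ⌊t / (2 * L)⌋ with hz
    have hz0 : 0 ≤ z := Int.floor_nonneg.mpr (by positivity)
    have hzle : (z : ℝ) * (2 * L) ≤ t := by
      have := Int.floor_le (t / (2 * L))
      rw [← hz] at this
      rwa [le_div_iff₀ h2L] at this
    have hzlt : t < ((z : ℝ) + 1) * (2 * L) := by
      have := Int.lt_floor_add_one (t / (2 * L))
      rw [← hz] at this
      rwa [div_lt_iff₀ h2L] at this
    have hzM : z < (M : ℤ) := by
      have h : (z : ℝ) * (2 * L) < (M : ℝ) * (2 * L) := by
        calc (z : ℝ) * (2 * L) ≤ t := hzle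
          _ < 2 * M * L := htK
          _ = (M : ℝ) * (2 * L) := by ring
      have h' : (z : ℝ) < (M : ℝ) := lt_of_mul_lt_mul_right h h2L.le
      exact_mod_cast h'
    obtain ⟨i, hi⟩ : ∃ i : ℕ, z = (i : ℤ) := ⟨z.toNat, (Int.toNat_of_nonneg hz0).symm⟩
    have hiM : i < M := by
      rw [hi] at hzM
      exact_mod_cast hzM
    have hzi : (z : ℝ) = (i : ℝ) := by rw [hi]; norm_cast
    have hloc : loc L t = t - 2 * L * i := by
      unfold loc
      rw [← hz, hzi]
    rw [hzi] at hzle hzlt
    -- all other terms are zero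
    have hoth : ∀ j : Fin M, j ≠ ⟨i, hiM⟩ → fj n0 N M n k (j : ℕ) t x = 0 := by
      intro j hj
      unfold fj
      rw [if_neg]
      rintro ⟨ha, hb⟩
      rw [← hLdef] at ha hb
      apply hj
      apply Fin.ext
      show (j : ℕ) = i
      rcases lt_trichotomy (j : ℕ) i with h | h | h
      · exfalso
        have h' : ((j : ℕ) : ℝ) + 1 ≤ (i : ℝ) := by exact_mod_cast h
        nlinarith
      · exact h
      · exfalso
        have h' : (i : ℝ) + 1 ≤ ((j : ℕ) : ℝ) := by exact_mod_cast h
        nlinarith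
    rw [Finset.sum_eq_single (⟨i, hiM⟩ : Fin M) (fun j _ hj => hoth j hj)
      (fun h => absurd (Finset.mem_univ _) h)]
    show _ = fj n0 N M n k i t x
    unfold fj
    rw [← hLdef]
    by_cases hc : 2 * (i : ℝ) * L < t ∧ t < (2 * (i : ℝ) + 1) * L
    · rw [if_pos hc]
    · rw [if_neg hc, hex]
      by_cases hl : loc L t < L
      · rw [if_pos hl]
        rw [hloc] at hl
        have h3 : t = 2 * (i : ℝ) * L := by
          by_contra hne
          apply hc
          constructor
          · exact lt_of_le_of_ne (by linarith) (Ne.symm hne)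
          · linarith
        have h4 : loc L t = 0 := by rw [hloc, h3]; ring
        rw [h4, ft_zero]
      · rw [if_neg hl]

theorem main (hFEX : S_FEX) (hFLIN : S_FLIN) (hFLOC : S_FLOC) (hFREG : S_FREG) (hSIT : S_SIT)
    (hBLK : S_BLK) (hNUM : S_NUM) : S_REC := by
  intro T n0 N M hP n k u v w wv hu hw
  obtain ⟨hFD, hsym, hbd, hpos, hper, hzero, hsup, hsh, hpul⟩ := hBLK T n0 N M hP (n + 1) k
  obtain ⟨hFD1, hsym1, hbd1, hpos1, hper1, hzero1, hsup1, hsh1, hpul1⟩ :=
    hBLK T n0 N M hP n (k + 1)
  obtain ⟨-, -, -, -, -, -, -, hsh', -⟩ := hBLK T n0 N M hP n k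
  have hL : 0 < LL n0 N (k + 1) := (hNUM T n0 N M hP (k + 1)).2.2.2.1
  have hT := hP.hT
  have hM := hP.hM
  set L := LL n0 N (k + 1) with hLdef
  -- the data
  have hFDj : ∀ j : Fin M, FD 2 T (bt n0 N M (n + 1) k) (fj n0 N M n k (j : ℕ)) := by
    intro j
    refine ⟨hFD.mb, hFD.pb, hFD.sb, ?_, ?_, ?_, ?_, hFD.db⟩
    · have : U (fj n0 N M n k (j : ℕ)) = fun z : ℝ × (Fin 2 → ℝ) =>
          if 2 * ((j : ℕ) : ℝ) * LL n0 N (k + 1) < z.1 ∧
            z.1 < (2 * ((j : ℕ) : ℝ) + 1) * LL n0 N (k + 1)
          then U (ft n0 N M (n + 1) k) z else 0 := by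
        funext z
        rfl
      rw [this]
      apply Measurable.ite _ hFD.mf measurable_const
      exact (measurableSet_lt measurable_const measurable_fst).inter
        (measurableSet_lt measurable_fst measurable_const)
    · intro t x kk
      unfold fj
      split_ifs
      · exact hFD.pf t x kk
      · rfl
    · intro t ht x
      unfold fj
      split_ifs
      · exact hFD.sf t ht x
      · rfl
    · obtain ⟨B, hB⟩ := hFD.bdd
      refine ⟨B, fun t x => ⟨?_, (hB t x).2⟩⟩
      unfold fj
      split_ifs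
      · exact (hB t x).1
      · rw [abs_zero]; exact le_trans (abs_nonneg _) (hB t x).1
  have hex : ∀ j : Fin M, ∃ uu vv, FSol 2 T (bt n0 N M (n + 1) k) (fj n0 N M n k (j : ℕ)) uu vv :=
    fun j => hFEX 2 T _ _ hT (hFDj j)
  choose uj vj hsol using hex
  -- shift identity
  have hshift : ∀ (j : Fin M) t x, t ≤ L → uj j (t + 2 * ((j : ℕ) : ℝ) * L) x = w t x := by
    intro j t x ht
    have key := hFLOC 2 T (bt n0 N M n (k + 1)) (bt n0 N M (n + 1) k) (ft n0 N M n (k + 1))
      (fj n0 N M n k (j : ℕ)) w (uj j) wv (vj j) hT hw (hsol j) (fun _ => 1) (fun _ => 0) 1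
      (2 * ((j : ℕ) : ℝ) * L) L (fun _ => Or.inl rfl) (Or.inl rfl) (by positivity)
      (by
        intro s hs0 hsL y
        have hy : (fun i : Fin 2 => (1 : ℝ) * y i + 0) = y := by funext i; ring
        rw [hy]
        have h1 := hsh' (j : ℕ) j.2 s hs0 hsL y
        constructor
        · rw [one_mul, ← h1.1]
          unfold fj
          rw [if_pos]
          constructor <;> rw [← hLdef] <;> linarith
        · intro i
          rw [one_mul]
          exact h1.2 i)
      (by
        intro s hs y
        unfold fj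
        rw [if_neg]
        rintro ⟨h, -⟩
        rw [← hLdef] at h
        linarith)
      t ht x
    have hy : (fun i : Fin 2 => (1 : ℝ) * x i + 0) = x := by funext i; ring
    rw [hy, one_mul] at key
    exact key
  refine ⟨uj, vj, ?_, ?_, ?_, ?_⟩
  · intro j
    apply hSIT T (bt n0 N M (n + 1) k) _ (uj j) (vj j) hT (hsol j)
    · intro t
      constructor
      · intro x
        have := (hsym t).1.1 x
        unfold fj
        split_ifs
        · exact this
        · simp
      · intro x
        have := (hsym t).1.2 x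
        unfold fj
        split_ifs
        · exact this
        · rfl
    · exact fun t => (hsym t).2
    · intro t x h0 h1
      unfold fj
      split_ifs
      · exact hpos t x h0 h1
      · exact le_rfl
  · intro t x
    have hlin := hFLIN 2 T (bt n0 N M (n + 1) k) M (fun j => fj n0 N M n k (j : ℕ)) uj vj hT
      (by omega) hsol
    have key := hFLOC 2 T (bt n0 N M (n + 1) k) (bt n0 N M (n + 1) k)
      (fun t x => ∑ j : Fin M, fj n0 N M n k (j : ℕ) t x) (ft n0 N M (n + 1) k)
      (fun t x => ∑ j, uj j t x) u (fun t x i => ∑ j, vj j t x i) v hT hlin hu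
      (fun _ => 1) (fun _ => 0) 1 0 t (fun _ => Or.inl rfl) (Or.inl rfl) le_rfl
      (by
        intro s _ _ y
        have hy : (fun i : Fin 2 => (1 : ℝ) * y i + 0) = y := by funext i; ring
        rw [hy, add_zero]
        constructor
        · rw [one_mul]
          exact sum_fj n0 N M n k hL hM s y
        · intro i
          rw [one_mul])
      (by
        intro s hs y
        exact (hzero s (Or.inl hs) y).1)
      t le_rfl x
    have hy : (fun i : Fin 2 => (1 : ℝ) * x i + 0) = x := by funext i; ring
    rw [hy, one_mul, add_zero] at key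
    exact key
  · intro j t x ht
    have h := hshift j (t - 2 * ((j : ℕ) : ℝ) * L) x (by linarith)
    rw [sub_add_cancel] at h
    rw [h]
    exact (hFREG 2 T _ _ w wv hT hw).2.1 _ (by linarith) x
  · intro j t x ht
    exact hshift j t x ht

end

end Pool.Agent.Helper72.ND.REC
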